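import Pool.Agent.P.MP_3ed42e_nt.Main

/-!
Every affine subspace of `ℝ^n` whose defining matrix has Diophantine exponent below `n` is of
Groshev type, both for convergence and for divergence.
-/

namespace Pool.Agent.Results.MP_3ed42e_nt.Groshev

open MeasureTheory Pool.Agent.P.MP_3ed42e_nt

theorem result (d m : ℕ) (hd : 1 ≤ d) (hm : 1 ≤ m) (A : Matrix (Fin (d + 1)) (Fin m) ℝ)
    (hA : dioExp A < ((d + m : ℕ) : EReal)) (ψ : ℕ → ℝ) (hpos : ∀ k, 1 ≤ k → 0 < ψ k)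
    (hmono : ∀ k l, 1 ≤ k → k ≤ l → ψ l ≤ ψ k) :
    (Summable (fun k : ℕ => ((k + 1 : ℕ) : ℝ) ^ (d + m - 1) * ψ (k + 1)) →
      volume {x : Fin d → ℝ | pt A x ∈ dualApprox (d + m) ψ} = 0) ∧
    (¬Summable (fun k : ℕ => ((k + 1 : ℕ) : ℝ) ^ (d + m - 1) * ψ (k + 1)) →
      volume {x : Fin d → ℝ | pt A x ∉ dualApprox (d + m) ψ} = 0) := by
  obtain ⟨d, rfl⟩ := Nat.exists_eq_add_of_le' hd
  exact ⟨convergence A hm hA ψ hpos hmono, divergence A hm hA ψ hpos hmono⟩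

end Pool.Agent.Results.MP_3ed42e_nt.Groshev
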